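import Pool.Agent.Helper74.CO.Goals2

/-!
# Project CO (MP_c5396e_co), stage 2, packet CO-GAC-GAD
-/

set_option autoImplicit false

namespace Pool.Agent.Helper40.CO

open Finset Pool.Agent.Helper74.CO

section

variable {F : Type} [Field F] [Fintype F] [DecidableEq F]

theorem norm_chi_le (χ : MulChar F ℂ) (x : F) : ‖χ x‖ ≤ 1 := by
  by_cases h : x = 0
  · rw [h, χ.map_nonunit not_isUnit_zero, norm_zero]
    exact zero_le_one
  · have h1 : (χ x) ^ (Fintype.card F - 1) = 1 := by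
      rw [← map_pow, FiniteField.pow_card_sub_one_eq_one x h, map_one]
    have h2 : Fintype.card F - 1 ≠ 0 := by
      have := Fintype.one_lt_card (α := F)
      omega
    exact (Complex.norm_eq_one_of_pow_eq_one h1 h2).le

theorem chi_zero (χ : MulChar F ℂ) (x : F) (hx : x ≠ 0) : (χ ^ (0 : ℤ)) x = 1 := by
  rw [zpow_zero]
  exact MulChar.one_apply (Ne.isUnit hx)

theorem ex_add (a b : ℝ) : ex (a + b) = ex a * ex b := by
  unfold ex
  rw [← Complex.exp_add]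
  congr 1
  push_cast
  ring

/-- the set of the admissible `x` misses at most five points -/
theorem card_compl_Xg (e f : F) (hef : ¬ (e = 0 ∧ f = 0)) : #(Xg e f)ᶜ ≤ 5 := by
  have h : (Xg e f)ᶜ ⊆ {0, 1, 1 - f, e, e / (e + f)} := by
    intro x hx
    unfold Xg at hx
    rw [mem_compl, mem_filter] at hx
    simp only [mem_univ, true_and, not_and_or, not_not, ne_eq] at hx
    simp only [mem_insert, mem_singleton]
    rcases hx with h | h | h | h | h
    · exact Or.inl h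
    · exact Or.inr (Or.inl h)
    · exact Or.inr (Or.inr (Or.inl h))
    · exact Or.inr (Or.inr (Or.inr (Or.inl h)))
    · right; right; right; right
      have h1 : e + f ≠ 0 := by
        intro h2
        rw [h2, zero_mul] at h
        apply hef
        refine ⟨h.symm, ?_⟩
        rw [← h, zero_add] at h2
        exact h2
      rw [eq_div_iff h1, mul_comm]
      exact h
  exact (card_le_card h).trans card_le_five

/-- bound of an incomplete sum -/
theorem incompl {κ : ℝ} (X : Finset F) (hX : #Xᶜ ≤ 5) (g : F → ℂ) (hg : ∀ x, ‖g x‖ ≤ 1)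
    (hκ : 0 < κ) (B : ℝ) (hB : ‖∑ x, g x‖ ≤ B) (hB2 : B + 5 ≤ κ * ((Fintype.card F : ℝ) - 5)) :
    ‖∑ x ∈ X, g x‖ ≤ κ * #X := by
  have h1 : ∑ x, g x = ∑ x ∈ X, g x + ∑ x ∈ Xᶜ, g x := (sum_add_sum_compl X g).symm
  have h2 : ‖∑ x ∈ Xᶜ, g x‖ ≤ 5 := by
    refine (norm_sum_le _ _).trans ?_
    calc ∑ x ∈ Xᶜ, ‖g x‖ ≤ ∑ _x ∈ Xᶜ, (1 : ℝ) := sum_le_sum fun x _ => hg x
      _ = #Xᶜ := by simp
      _ ≤ 5 := by exact_mod_cast hX
  have h3 : ∑ x ∈ X, g x = ∑ x, g x - ∑ x ∈ Xᶜ, g x := by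
    rw [h1]
    ring
  have h4 : (Fintype.card F : ℝ) - 5 ≤ #X := by
    have h5 : #X + #Xᶜ = Fintype.card F := card_add_card_compl X
    have h6 : (#X : ℝ) + #Xᶜ = Fintype.card F := by exact_mod_cast h5
    have h7 : (#Xᶜ : ℝ) ≤ 5 := by exact_mod_cast hX
    linarith
  rw [h3]
  have h8 := norm_sub_le (∑ x, g x) (∑ x ∈ Xᶜ, g x)
  have h9 : κ * ((Fintype.card F : ℝ) - 5) ≤ κ * #X := mul_le_mul_of_nonneg_left h4 hκ.le
  linarith

theorem mul_le_one' {a b : ℂ} (ha : ‖a‖ ≤ 1) (hb : ‖b‖ ≤ 1) : ‖a * b‖ ≤ 1 := by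
  rw [norm_mul]
  exact mul_le_one₀ ha (norm_nonneg _) hb

/-- bound of an incomplete sum of `c g` -/
theorem incompl' {κ : ℝ} (X : Finset F) (hX : #Xᶜ ≤ 5) (c : ℂ) (hc : ‖c‖ ≤ 1) (g : F → ℂ)
    (hg : ∀ x, ‖g x‖ ≤ 1) (hκ : 0 < κ)
    (hB2 : ‖∑ x, g x‖ + 5 ≤ κ * ((Fintype.card F : ℝ) - 5)) :
    ‖∑ x ∈ X, c * g x‖ ≤ κ * #X := by
  refine incompl X hX _ (fun x => mul_le_one' hc (hg x)) hκ ‖∑ x, g x‖ ?_ hB2
  rw [← mul_sum, norm_mul]
  exact mul_le_of_le_one_left (norm_nonneg _) hc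

end

/-- **GAC** -/
theorem t_GAC (hLIM : LIM) (hJAC : ∀ (F : Type) [Field F] [Fintype F] [DecidableEq F], JAC F)
    (hCHM : CHM) : GAC := by
  intro K κ hκ
  obtain ⟨q₀, hq₀⟩ := hLIM κ hκ
  refine ⟨max q₀ (K + 10), ?_⟩
  intro F _ _ _ α β e f hq hα hβ j l hj hl hne
  have hqK : K + 10 ≤ Fintype.card F := (le_max_right _ _).trans hq
  have hqq : q₀ ≤ Fintype.card F := (le_max_left _ _).trans hq
  have hlim := hq₀ _ hqq
  have hq1 : (1 : ℝ) ≤ √(Fintype.card F : ℝ) := by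
    rw [Real.one_le_sqrt]
    exact_mod_cast (by omega : 1 ≤ Fintype.card F)
  have hq0 : (0 : ℝ) ≤ Fintype.card F := Nat.cast_nonneg _
  have hqs : (Fintype.card F : ℝ) ≤ Fintype.card F * √(Fintype.card F : ℝ) :=
    le_mul_of_one_le_right hq0 hq1
  obtain ⟨χ, hχ, hχ1⟩ := hCHM F α hα (by omega)
  obtain ⟨ω, hω, hω1⟩ := hCHM F β hβ (by omega)
  by_cases hef : e = 0 ∧ f = 0
  · have hX : Xg e f = ∅ := by
      unfold Xg
      rw [Finset.filter_eq_empty_iff]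
      intro x _ h
      apply h.2.2.2.2
      rw [hef.1, hef.2, add_zero, zero_mul]
    rw [hX]
    simp
  have hX5 := card_compl_Xg e f hef
  have hterm : ∀ x ∈ Xg e f, ex (j * ag α x + l * cg β x) = (χ ^ j) x * (ω ^ l) (1 - x) := by
    intro x hx
    unfold Xg at hx
    rw [mem_filter] at hx
    rw [ex_add, hχ x hx.2.1, hω (1 - x) (sub_ne_zero.mpr (Ne.symm hx.2.2.1))]
    rfl
  rw [sum_congr rfl hterm]
  by_cases hl0 : l = 0
  · subst hl0
    have hj0 : j ≠ 0 := fun h => hne ⟨h, rfl⟩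
    have h1 : ∑ x ∈ Xg e f, (χ ^ j) x * (ω ^ (0 : ℤ)) (1 - x) = ∑ x ∈ Xg e f, (χ ^ j) x := by
      refine sum_congr rfl fun x hx => ?_
      unfold Xg at hx
      rw [mem_filter] at hx
      rw [chi_zero ω _ (sub_ne_zero.mpr (Ne.symm hx.2.2.1)), mul_one]
    rw [h1]
    have h2 : ∑ x, (χ ^ j) x = 0 :=
      MulChar.sum_eq_zero_of_ne_one (hχ1 j hj0 (by omega))
    refine incompl _ hX5 _ (norm_chi_le _) hκ 0 (by rw [h2, norm_zero]) ?_
    exact hlim 0 le_rfl (by rw [zero_pow two_ne_zero]; positivity)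
  · have h1 : ∑ x ∈ Xg e f, (χ ^ j) x * (ω ^ l) (1 - x) =
        ∑ x ∈ Xg e f, (ω ^ l) (-1) * ((χ ^ j) x * (ω ^ l) (x - 1)) := by
      refine sum_congr rfl fun x _ => ?_
      have h2 : (1 : F) - x = (-1) * (x - 1) := by ring
      rw [h2, map_mul]
      ring
    rw [h1]
    have hJ := hJAC F (χ ^ j) (ω ^ l) 1 (hω1 l hl0 (by omega)) one_ne_zero
    refine incompl' _ hX5 _ (norm_chi_le _ _) _
      (fun x => mul_le_one' (norm_chi_le _ _) (norm_chi_le _ _)) hκ ?_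
    exact hlim _ (norm_nonneg _) (by nlinarith)

/-- **GAD** -/
theorem t_GAD (hLIM : LIM) (hTP : ∀ (F : Type) [Field F] [Fintype F] [DecidableEq F], TP F)
    (hJAC : ∀ (F : Type) [Field F] [Fintype F] [DecidableEq F], JAC F)
    (hCHM : CHM) : GAD := by
  intro K κ hκ
  obtain ⟨q₀, hq₀⟩ := hLIM κ hκ
  refine ⟨max q₀ (K + 10), ?_⟩
  intro F _ _ _ α β e f hq hα hβ he hf hef1 j l hj hl hne
  have hqK : K + 10 ≤ Fintype.card F := (le_max_right _ _).trans hq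
  have hqq : q₀ ≤ Fintype.card F := (le_max_left _ _).trans hq
  have hlim := hq₀ _ hqq
  have hq1 : (1 : ℝ) ≤ √(Fintype.card F : ℝ) := by
    rw [Real.one_le_sqrt]
    exact_mod_cast (by omega : 1 ≤ Fintype.card F)
  have hq0 : (0 : ℝ) ≤ Fintype.card F := Nat.cast_nonneg _
  have hqs : (Fintype.card F : ℝ) ≤ Fintype.card F * √(Fintype.card F : ℝ) :=
    le_mul_of_one_le_right hq0 hq1
  obtain ⟨χ, hχ, hχ1⟩ := hCHM F α hα (by omega)
  obtain ⟨ω, hω, hω1⟩ := hCHM F β hβ (by omega)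
  have hX5 := card_compl_Xg e f (fun h => he h.1)
  have hmem : ∀ x ∈ Xg e f, x ≠ 0 ∧ x - e ≠ 0 ∧ (e + f) * x - e ≠ 0 := by
    intro x hx
    unfold Xg at hx
    rw [mem_filter] at hx
    exact ⟨hx.2.1, sub_ne_zero.mpr hx.2.2.2.2.1, sub_ne_zero.mpr hx.2.2.2.2.2⟩
  have hM : ∀ x ∈ Xg e f, 1 - Mg e f x = f * (x - e) / ((e + f) * x - e) := by
    intro x hx
    obtain ⟨-, -, h3⟩ := hmem x hx
    unfold Mg
    rw [eq_div_iff h3, sub_mul, div_mul_cancel₀ _ h3]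
    ring
  have hM0 : ∀ x ∈ Xg e f, 1 - Mg e f x ≠ 0 := by
    intro x hx
    obtain ⟨-, h2, h3⟩ := hmem x hx
    rw [hM x hx]
    exact div_ne_zero (mul_ne_zero hf h2) h3
  have hterm : ∀ x ∈ Xg e f, ex (j * ag α x + l * cg β (Mg e f x)) =
      (χ ^ j) x * (ω ^ l) (1 - Mg e f x) := by
    intro x hx
    rw [ex_add, hχ x (hmem x hx).1, hω _ (hM0 x hx)]
    rfl
  rw [sum_congr rfl hterm]
  by_cases hl0 : l = 0
  · subst hl0
    have hj0 : j ≠ 0 := fun h => hne ⟨h, rfl⟩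
    have h1 : ∑ x ∈ Xg e f, (χ ^ j) x * (ω ^ (0 : ℤ)) (1 - Mg e f x) =
        ∑ x ∈ Xg e f, (χ ^ j) x := by
      refine sum_congr rfl fun x hx => ?_
      rw [chi_zero ω _ (hM0 x hx), mul_one]
    rw [h1]
    have h2 : ∑ x, (χ ^ j) x = 0 :=
      MulChar.sum_eq_zero_of_ne_one (hχ1 j hj0 (by omega))
    refine incompl _ hX5 _ (norm_chi_le _) hκ 0 (by rw [h2, norm_zero]) ?_
    exact hlim 0 le_rfl (by rw [zero_pow two_ne_zero]; positivity)
  · have hω2 : ω ^ l ≠ 1 := hω1 l hl0 (by omega)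
    by_cases hef : e + f = 0
    · -- `1 - M x = x - e`
      have h1 : ∑ x ∈ Xg e f, (χ ^ j) x * (ω ^ l) (1 - Mg e f x) =
          ∑ x ∈ Xg e f, 1 * ((χ ^ j) x * (ω ^ l) (x - e)) := by
        refine sum_congr rfl fun x hx => ?_
        rw [one_mul, hM x hx]
        congr 2
        have hfe : f = -e := eq_neg_of_add_eq_zero_right hef
        rw [hef, zero_mul, zero_sub, hfe, neg_mul, neg_div_neg_eq, mul_div_cancel_left₀ _ he]
      rw [h1]
      have hJ := hJAC F (χ ^ j) (ω ^ l) e hω2 he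
      refine incompl' _ hX5 1 (by rw [norm_one]) _
        (fun x => mul_le_one' (norm_chi_le _ _) (norm_chi_le _ _)) hκ ?_
      exact hlim _ (norm_nonneg _) (by nlinarith)
    · have h1 : ∑ x ∈ Xg e f, (χ ^ j) x * (ω ^ l) (1 - Mg e f x) =
          ∑ x ∈ Xg e f, (ω ^ l) (f / (e + f)) *
            ((χ ^ j) x * ((ω ^ l) (x - e) * (ω ^ l)⁻¹ (x - e / (e + f)))) := by
        refine sum_congr rfl fun x hx => ?_
        obtain ⟨-, h2, h3⟩ := hmem x hx
        have h4 : (e + f) * x - e = (e + f) * (x - e / (e + f)) := by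
          rw [mul_sub, mul_div_cancel₀ _ hef]
        have h5 : 1 - Mg e f x = f / (e + f) * ((x - e) * (x - e / (e + f))⁻¹) := by
          rw [hM x hx, h4, mul_div_mul_comm, div_eq_mul_inv (x - e)]
        rw [h5, map_mul, map_mul, MulChar.inv_apply']
        ring
      rw [h1]
      have hT := hTP F (χ ^ j) (ω ^ l) e (e / (e + f)) hω2 (by
        intro h
        rw [eq_div_iff hef] at h
        apply hef1
        exact mul_left_cancel₀ he (h.trans (mul_one e).symm))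
      refine incompl' _ hX5 _ (norm_chi_le _ _) _
        (fun x => mul_le_one' (norm_chi_le _ _)
          (mul_le_one' (norm_chi_le _ _) (norm_chi_le _ _))) hκ ?_
      refine hlim _ (norm_nonneg _) (hT.trans ?_)
      have h5 : 0 ≤ (Fintype.card F : ℝ) * √(Fintype.card F : ℝ) := by positivity
      nlinarith

end Pool.Agent.Helper40.CO
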